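import Pool.Agent.Y553.PL.Stm

/-!
# Project PL: number of vertices of the example, and the final arithmetic

Job 11133 (poster helper553).
-/

set_option autoImplicit false

namespace Pool.Agent.Y665.PL

open Pool.Agent.Y553.PL

/-- The vertices as a sum type. -/
def eqv (q L : ℕ) : Vt q L ≃
    ((Bool × Fin L) ⊕ Fin q) ⊕ (ZMod q ⊕ ((Fin q × ZMod q) ⊕ (Fin q → ZMod q))) where
  toFun := fun x => match x with
    | .s p => .inl (.inl p)
    | .a i => .inl (.inr i)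
    | .b j => .inr (.inl j)
    | .d i j => .inr (.inr (.inl (i, j)))
    | .w g => .inr (.inr (.inr g))
  invFun := fun x => match x with
    | .inl (.inl p) => .s p
    | .inl (.inr i) => .a i
    | .inr (.inl j) => .b j
    | .inr (.inr (.inl ij)) => .d ij.1 ij.2
    | .inr (.inr (.inr g)) => .w g
  left_inv := by
    intro x
    cases x <;> rfl
  right_inv := by
    rintro ((p | i) | (j | (ij | g))) <;> rfl

theorem t_EXCARD : St_EXCARD := by
  intro q L hq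
  have : NeZero q := ⟨hq⟩
  rw [Nat.card_congr (eqv q L)]
  simp only [Nat.card_eq_fintype_card, Fintype.card_bool,
    Fintype.card_fin, ZMod.card, Fintype.card_sum, Fintype.card_prod, Fintype.card_fun]
  ring

theorem aux1 (u : ℕ) : 2 + 2 * (u + 4) ≤ (u + 4) ^ 2 := by nlinarith

theorem aux2 (u : ℕ) : u + 8 ≤ (u + 4) * (u + 4) := by nlinarith

theorem aux3 (u : ℕ) : (u + 3) * (u + 5) ≤ (u + 3) ^ 3 := by
  have h : (u + 3) ^ 3 = (u + 3) * ((u + 3) * (u + 3)) := by ring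
  rw [h]
  exact Nat.mul_le_mul_left _ (by nlinarith)

theorem t_ARITH : St_ARITH := by
  intro c N
  obtain ⟨q, hq1, hq2⟩ := Nat.exists_infinite_primes (max N (2 * (3 * c + 1) + 8))
  have hN : N ≤ q := (le_max_left _ _).trans hq1
  have hm : 2 * (3 * c + 1) + 8 ≤ q := (le_max_right _ _).trans hq1
  refine ⟨q, hq2, hN, hm, ?_⟩
  obtain ⟨u, rfl⟩ : ∃ u, q = u + 4 := ⟨q - 4, by omega⟩
  rw [show u + 4 - 1 = u + 3 by omega]
  obtain ⟨m, hmd⟩ : ∃ m, m = 3 * c + 1 := ⟨_, rfl⟩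
  rw [← hmd] at hm ⊢
  -- the size of the structure
  have h1 : (u + 3) ^ m ≤ (u + 4) ^ (u + 3) :=
    (Nat.pow_le_pow_left (by omega) m).trans (Nat.pow_le_pow_right (by omega) (by omega))
  have h2 : (u + 4) ^ 2 ≤ (u + 4) ^ (u + 3) := Nat.pow_le_pow_right (by omega) (by omega)
  have h3 : (u + 4) ^ (u + 4) = (u + 4) * (u + 4) ^ (u + 3) := by rw [pow_succ]; ring
  have h4 : (u + 4) ^ (u + 5) = (u + 4) * ((u + 4) * (u + 4) ^ (u + 3)) := by
    rw [pow_succ, pow_succ]; ring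
  have h5 : 2 * ((u + 3) ^ m + 1) + 2 * (u + 4) + (u + 4) * (u + 4) + (u + 4) ^ (u + 4) ≤
      (u + 4) ^ (u + 5) := by
    rw [h3, h4]
    obtain ⟨X, hX⟩ : ∃ X, X = (u + 4) ^ (u + 3) := ⟨_, rfl⟩
    rw [← hX] at h1 h2 ⊢
    have a1 := aux1 u
    have a2 : (u + 8) * X ≤ ((u + 4) * (u + 4)) * X := Nat.mul_le_mul_right _ (aux2 u)
    have a3 : (u + 4) * ((u + 4) * X) = ((u + 4) * (u + 4)) * X := by ring
    have a4 : (u + 8) * X = 4 * X + (u + 4) * X := by ring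
    have a5 : (u + 4) * (u + 4) = (u + 4) ^ 2 := by ring
    rw [a3]
    refine le_trans ?_ a2
    rw [a4, a5]
    omega
  have h6 : u + 4 < 2 ^ (Nat.log 2 (u + 4) + 1) := Nat.lt_pow_succ_log_self (by norm_num) _
  have h7 : (u + 4) ^ (u + 5) < 2 ^ ((Nat.log 2 (u + 4) + 1) * (u + 5)) := by
    rw [pow_mul]
    exact Nat.pow_lt_pow_left h6 (by omega)
  have h8 : Nat.log 2 (2 * ((u + 3) ^ m + 1) + 2 * (u + 4) + (u + 4) * (u + 4) +
      (u + 4) ^ (u + 4)) < (Nat.log 2 (u + 4) + 1) * (u + 5) :=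
    Nat.log_lt_of_lt_pow (by positivity) (lt_of_le_of_lt h5 h7)
  have h9 : Nat.log 2 (u + 4) + 1 ≤ u + 3 := by
    have : u + 4 < 2 ^ (u + 3) := by
      have h10 : u + 3 < 2 ^ (u + 3) := Nat.lt_two_pow_self
      have h11 : 2 ^ (u + 3) = 8 * 2 ^ u := by rw [pow_add]; ring
      have h12 : u < 2 ^ u := Nat.lt_two_pow_self
      omega
    have := Nat.log_lt_of_lt_pow (b := 2) (by omega) this
    omega
  have h10 : Nat.log 2 (2 * ((u + 3) ^ m + 1) + 2 * (u + 4) + (u + 4) * (u + 4) +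
      (u + 4) ^ (u + 4)) ≤ (u + 3) ^ 3 := by
    have h11 : (Nat.log 2 (u + 4) + 1) * (u + 5) ≤ (u + 3) * (u + 5) :=
      Nat.mul_le_mul_right _ h9
    have h12 := aux3 u
    omega
  have h13 : (Nat.log 2 (2 * ((u + 3) ^ m + 1) + 2 * (u + 4) + (u + 4) * (u + 4) +
      (u + 4) ^ (u + 4))) ^ c ≤ (u + 3) ^ (3 * c) := by
    rw [pow_mul]
    exact Nat.pow_le_pow_left h10 c
  have h14 : (u + 3) ^ m = (u + 3) ^ (3 * c) * (u + 3) := by rw [hmd, pow_succ]
  have h15 : 1 ≤ (u + 3) ^ (3 * c) := Nat.one_le_pow _ _ (by omega)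
  refine (Nat.add_le_add_right h13 2).trans ?_
  rw [h14]
  obtain ⟨Y, hY⟩ : ∃ Y, Y = (u + 3) ^ (3 * c) := ⟨_, rfl⟩
  rw [← hY] at h15 ⊢
  have h16 : Y * (u + 3) = Y * u + 3 * Y := by ring
  have h17 := Nat.zero_le (Y * u)
  rw [h16]
  omega

end Pool.Agent.Y665.PL
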